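import Pool.Agent.Lib.MP_e310f3_mp.Defs
import Pool.Agent.Lib.MP_e310f3_mp.Gap.Main
import Pool.Agent.Lib.MP_e310f3_mp.Gap.Chazy

/-! The scattered image of an incoming beam of the planar three-body problem need not be dense. -/

namespace Pool.Agent.Results.MP_e310f3_mp.NotDense

open Pool.Agent.Lib.MP_e310f3_mp

theorem result : ∃ (m : Fin 3 → ℝ) (E : ℝ) (s x : Cfg 3 2) (δ : ℝ), (∀ i, 0 < m i) ∧ 0 < E ∧
    massNorm m s = 1 ∧ ∑ i, m i • s i = 0 ∧ (∀ i j, i ≠ j → s i ≠ s j) ∧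
    massNorm m x = 1 ∧ ∑ i, m i • x i = 0 ∧ 0 < δ ∧
    ∀ y ∈ scatteredImage m E s, δ ≤ massNorm m (y - x) := by
  obtain ⟨κ, b, δ, h1, h2, h3, h4, h5⟩ := Gap.no_orbit
  exact Gap.chazy_gap h1 h2 h3 h4 h5

end Pool.Agent.Results.MP_e310f3_mp.NotDense
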