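import Pool.Agent.Lib.MP_e310f3_mp.PlB

/-! Planar three-body scattering with two light bodies: as their mass tends to zero, the scattered
image of a beam near the symmetric collinear shape fills an open set of full measure. -/

namespace Pool.Agent.Results.MP_e310f3_mp.Planetary

open Pool.Agent.Lib.MP_e310f3_mp MeasureTheory

theorem result : ∃ G : Set (EuclideanSpace ℝ (Fin 2) × EuclideanSpace ℝ (Fin 2)),
    IsOpen G ∧ volume Gᶜ = 0 ∧ ∀ K ⊆ G, IsCompact K →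
    ∃ ε₀ > 0, ∃ ρ > 0, ∀ ε : ℝ, 0 < ε → ε < ε₀ → ∀ E : ℝ, 0 < E → ∀ s x : Cfg 3 2,
      ∑ i, ![1, ε, ε] i • s i = 0 → massNorm ![1, ε, ε] s = 1 →
      (∃ r : ℝ, 0 < r ∧ ‖r • (s 1 - s 0) - !₂[1, 0]‖ < ρ ∧ ‖r • (s 2 - s 0) + !₂[1, 0]‖ < ρ) →
      ∑ i, ![1, ε, ε] i • x i = 0 → massNorm ![1, ε, ε] x = 1 →
      (∃ r : ℝ, 0 < r ∧ (r • (x 1 - x 0), r • (x 2 - x 0)) ∈ K) →
      x ∈ scatteredImage ![1, ε, ε] E s :=
  Pl.planetary

end Pool.Agent.Results.MP_e310f3_mp.Planetary
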