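import Pool.Agent.Lib.MP_e310f3_mp.Main

/-! Planar `N`-body scattering: if four points of the incoming shape are in general position, the
scattered image contains a punctured neighbourhood of the undeflected shape. -/

namespace Pool.Agent.Results.MP_e310f3_mp.PuncturedNbhd

open Pool.Agent.Lib.MP_e310f3_mp

theorem result (N : ℕ) (m : Fin N → ℝ) (hm : ∀ i, 0 < m i) (E : ℝ) (hE : 0 < E) (sm : Cfg N 2)
    (h1 : massNorm m sm = 1) (h2 : ∑ i, m i • sm i = 0) (h3 : ∀ i j, i ≠ j → sm i ≠ sm j)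
    (t : Fin 4 → Fin N)
    (ht : ∀ x y w, x ≠ y → x ≠ w → y ≠ w → ¬ Collinear ℝ {sm (t x), sm (t y), sm (t w)}) :
    ∃ ε : ℝ, 0 < ε ∧ ∀ x : Cfg N 2, massNorm m x = 1 → ∑ i, m i • x i = 0 → dist x (-sm) < ε →
      x ≠ -sm → x ∈ scatteredImage m E sm :=
  punctured hm hE h1 h2 h3 t ht

end Pool.Agent.Results.MP_e310f3_mp.PuncturedNbhd
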