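import Pool.Agent.Lib.MP_e310f3_mp.Main

/-! Planar three-body scattering: near the undeflected shape, the scattered image contains every
shape outside arbitrarily thin cones around the walls. -/

namespace Pool.Agent.Results.MP_e310f3_mp.ThreeBodyCone

open Pool.Agent.Lib.MP_e310f3_mp

theorem result (m : Fin 3 → ℝ) (hm : ∀ i, 0 < m i) (E : ℝ) (hE : 0 < E) (sm : Cfg 3 2)
    (h1 : massNorm m sm = 1) (h2 : ∑ i, m i • sm i = 0) (h3 : ¬ Collinear ℝ {sm 0, sm 1, sm 2})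
    (θ : ℝ) (hθ : 0 < θ) :
    ∃ ε : ℝ, 0 < ε ∧ ∀ x : Cfg 3 2, massNorm m x = 1 → ∑ i, m i • x i = 0 → dist x (-sm) < ε →
      x ≠ -sm → (∀ i k, i ≠ k → θ * ‖x + sm‖ ≤ |inner ℝ (x i + sm i) (sm k - sm i)|) →
      x ∈ scatteredImage m E sm :=
  three hm hE h1 h2 h3 hθ

end Pool.Agent.Results.MP_e310f3_mp.ThreeBodyCone
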